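import Mathlib

set_option autoImplicit false

namespace Pool.Agent.H.MP_a6acde_co

open Finset

open Classical in
noncomputable def I (P : Prop) (v : ℕ) : ℕ := if P then v else 0

lemma sp (P : Prop) (v : ℕ) : (P ∧ I P v = v) ∨ (¬P ∧ I P v = 0) := by
  by_cases h : P <;> simp [I, h]

lemma SI {q : ℕ} {P : ℕ → Prop} (v lo n : ℕ) (h : ∀ c < q, P c ↔ lo ≤ c ∧ c < lo + n)
    (h' : n = 0 ∨ lo + n ≤ q) : ∑ c ∈ range q, I (P c) v = n * v := by
  classical
  simp only [I]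
  rw [← sum_filter, sum_const, smul_eq_mul]
  congr 1
  rw [show n = #(Ico lo (lo + n)) by simp]
  congr 1
  ext c
  simp only [mem_filter, mem_range, mem_Ico]
  exact ⟨fun a => (h c a.1).1 a.2, fun a => ⟨by omega, (h c (by omega)).2 a⟩⟩

lemma SP {q : ℕ} {P : ℕ → Prop} (v : ℕ → ℕ) (j : ℕ) (h : ∀ c < q, P c ↔ c = j)
    (h' : j < q ∨ v j = 0) : ∑ c ∈ range q, I (P c) (v c) = v j := by
  rw [sum_eq_single j (fun c hc n => by have := sp (P c) (v c); have := h c (mem_range.1 hc); tauto)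
    fun n => by have := sp (P j) (v j); rw [mem_range] at n; omega]
  have a := sp (P j) (v j)
  rcases h' with h' | h'
  · have := (h j h').2 rfl
    tauto
  · omega

lemma S0 {q : ℕ} {P : ℕ → Prop} (v : ℕ → ℕ) (h : ∀ c < q, ¬ P c) :
    ∑ c ∈ range q, I (P c) (v c) = 0 :=
  sum_eq_zero fun c hc => by have := sp (P c) (v c); have := h c (mem_range.1 hc); tauto

def aa (h b : ℕ) : ℕ := if b < h then 11 else if b = h then 9 else if b + 12 ≤ 2 * h then 7 else 0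
def mu (h b : ℕ) : ℕ := if b ≤ h then h - b else 2 * h + 16 - b
def lo (h b : ℕ) : ℕ := if h < b ∧ b + 12 ≤ 2 * h then b + 8 else max 14 (b + 1)

lemma reg (h b : ℕ) : (b < h ∧ aa h b = 11 ∧ mu h b = h - b ∧ lo h b = max 14 (b + 1)) ∨
    (b = h ∧ aa h b = 9 ∧ mu h b = 0 ∧ lo h b = max 14 (b + 1)) ∨
    (h < b ∧ b + 12 ≤ 2 * h ∧ aa h b = 7 ∧ mu h b = 2 * h + 16 - b ∧ lo h b = b + 8) ∨
    (h < b ∧ 2 * h < b + 12 ∧ aa h b = 0 ∧ mu h b = 2 * h + 16 - b ∧ lo h b = max 14 (b + 1)) := by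
  unfold aa mu lo
  split_ifs <;> omega

def bef (h b c : ℕ) : Prop := (c = 0 ∧ h ≤ b) ∨ (c < 14 ∧ h < b)

noncomputable def y (p h b c : ℕ) : ℕ :=
  I ((c = 0 ∧ h ≤ b) ∨ (c < 14 ∧ h < b)) p +
  I (1 ≤ b ∧ lo h b ≤ c ∧ c < b + aa h b + 1) p +
  I (1 ≤ b ∧ 14 ≤ c ∧ c = b + aa h b + 1) (min p (mu h b)) +
  I (1 ≤ b ∧ 14 ≤ c ∧ c = b + aa h b + 2) (mu h b - p) +
  I (13 ≤ b ∧ b ≤ h ∧ b + h ≤ c + 11 ∧ c + 4 < b + h) p +
  I (b = 0 ∧ 1 ≤ c ∧ c < 14) (14 - c) +
  I (b = 0 ∧ 14 ≤ c ∧ c < 28) 102 +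
  I (b = 0 ∧ 14 ≤ c) 15 +
  I (1 ≤ b ∧ b < 13 ∧ 28 ≤ c) (15 - b)

noncomputable def V (p h b c : ℕ) : ℕ :=
  I (1 ≤ b ∧ b + 1 ≤ c ∧ c < b + aa h b + 1) p +
  I (1 ≤ b ∧ 14 ≤ c ∧ c = b + aa h b + 1) (min p (mu h b)) +
  I (1 ≤ b ∧ 14 ≤ c ∧ c = b + aa h b + 2) (mu h b - p)

lemma y_facts {p h : ℕ} (e : 3 * p = 2 * h + 17) (l : 200 ≤ p) (b c : ℕ) :
    y p h b c ≤ p ∧ (bef h b c → y p h b c = p) ∧ (¬ bef h b c → c ≤ b → y p h b c = 0) := by
  unfold y bef
  have a1 := sp ((c = 0 ∧ h ≤ b) ∨ (c < 14 ∧ h < b)) p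
  have a2 := sp (1 ≤ b ∧ lo h b ≤ c ∧ c < b + aa h b + 1) p
  have a3 := sp (1 ≤ b ∧ 14 ≤ c ∧ c = b + aa h b + 1) (min p (mu h b))
  have a4 := sp (1 ≤ b ∧ 14 ≤ c ∧ c = b + aa h b + 2) (mu h b - p)
  have a5 := sp (13 ≤ b ∧ b ≤ h ∧ b + h ≤ c + 11 ∧ c + 4 < b + h) p
  have a6 := sp (b = 0 ∧ 1 ≤ c ∧ c < 14) (14 - c)
  have a7 := sp (b = 0 ∧ 14 ≤ c ∧ c < 28) 102
  have a8 := sp (b = 0 ∧ 14 ≤ c) 15
  have a9 := sp (1 ≤ b ∧ b < 13 ∧ 28 ≤ c) (15 - b)
  have r := reg h b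
  generalize I ((c = 0 ∧ h ≤ b) ∨ (c < 14 ∧ h < b)) p = x1 at *
  generalize I (1 ≤ b ∧ lo h b ≤ c ∧ c < b + aa h b + 1) p = x2 at *
  generalize I (1 ≤ b ∧ 14 ≤ c ∧ c = b + aa h b + 1) (min p (mu h b)) = x3 at *
  generalize I (1 ≤ b ∧ 14 ≤ c ∧ c = b + aa h b + 2) (mu h b - p) = x4 at *
  generalize I (13 ≤ b ∧ b ≤ h ∧ b + h ≤ c + 11 ∧ c + 4 < b + h) p = x5 at *
  generalize I (b = 0 ∧ 1 ≤ c ∧ c < 14) (14 - c) = x6 at *
  generalize I (b = 0 ∧ 14 ≤ c ∧ c < 28) 102 = x7 at *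
  generalize I (b = 0 ∧ 14 ≤ c) 15 = x8 at *
  generalize I (1 ≤ b ∧ b < 13 ∧ 28 ≤ c) (15 - b) = x9 at *
  have b1 : (x1 = p ∧ c < 14 ∧ h ≤ b) ∨ x1 = 0 := by clear * - a1; omega
  have b2 : (x2 + x3 + x4 ≤ p ∧ 1 ≤ b ∧ 14 ≤ c ∧ b < c ∧ c ≤ b + 13) ∨ x2 + x3 + x4 = 0 := by
    clear * - a2 a3 a4 r e l
    rcases r with r | r | r | r <;> rcases a2 with a2 | a2 <;> rcases a3 with a3 | a3 <;>
      rcases a4 with a4 | a4 <;> omega
  have b5 : (x5 = p ∧ 13 ≤ b ∧ b + h ≤ c + 11) ∨ x5 = 0 := by clear * - a5; omega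
  have b6 : (x6 + x7 + x8 ≤ 131 ∧ b = 0 ∧ 1 ≤ c) ∨ x6 + x7 + x8 = 0 := by
    clear * - a6 a7 a8
    omega
  have b9 : (x9 ≤ 15 ∧ 1 ≤ b ∧ b < 13 ∧ 28 ≤ c) ∨ x9 = 0 := by clear * - a9; omega
  clear a2 a3 a4 a5 a6 a7 a8 a9 r
  refine ⟨?_, fun a => ?_, fun a d => ?_⟩
  · clear a1
    rcases b1 with b1 | b1 <;> rcases b2 with b2 | b2 <;> rcases b5 with b5 | b5 <;> omega
  · clear b1
    rcases b2 with b2 | b2 <;> rcases b5 with b5 | b5 <;> omega
  · clear b1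
    rcases b2 with b2 | b2 <;> rcases b5 with b5 | b5 <;> omega

noncomputable def Ga (p h b : ℕ) : ℕ := ∑ c ∈ range (3 * p), y p h b c
noncomputable def Be (p h c : ℕ) : ℕ := ∑ b ∈ range (3 * p), y p h b c

lemma Ga_big {p h : ℕ} (e : 3 * p = 2 * h + 17) (l : 200 ≤ p) (b : ℕ) (h1 : 13 ≤ b)
    (h2 : b < 3 * p) : (b < h ∧ Ga p h b = 18 * p + (h - b)) ∨ (b = h ∧ Ga p h b = 17 * p) ∨
      (h < b ∧ Ga p h b = 14 * p + (2 * h + 16 - b)) := by
  have r := reg h b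
  have key : ∀ n1 n2 n5, (∀ c < 3 * p, (c = 0 ∧ h ≤ b) ∨ (c < 14 ∧ h < b) ↔ 0 ≤ c ∧ c < 0 + n1) →
      n1 ≤ 14 → lo h b + n2 = b + aa h b + 1 → (b ≤ h ∧ n5 = 7 ∨ h < b ∧ n5 = 0) →
      Ga p h b = n1 * p + n2 * p + mu h b + n5 * p := by
    intro n1 n2 n5 k1 k2 k3 k4
    simp only [Ga, y, sum_add_distrib]
    rw [SI p 0 n1 k1 (by omega), SI p (lo h b) n2 (fun c _ => by omega) (by omega),
      SP (fun _ => min p (mu h b)) (b + aa h b + 1) (fun c _ => by omega) (by omega),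
      SP (fun _ => mu h b - p) (b + aa h b + 2) (fun c _ => by omega) (by omega),
      SI p (b + h - 11) n5 (fun c _ => by omega) (by omega), S0 (fun c => 14 - c) (fun c _ => by omega),
      S0 (fun _ => 102) (fun c _ => by omega), S0 (fun _ => 15) (fun c _ => by omega),
      S0 (fun _ => 15 - b) (fun c _ => by omega)]
    omega
  rcases r with r | r | r | r
  · have := key 0 11 7 (fun c _ => by omega) (by omega) (by omega) (by omega)
    omega
  · have := key 1 9 7 (fun c _ => by omega) (by omega) (by omega) (by omega)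
    omega
  · have := key 14 0 0 (fun c _ => by omega) (by omega) (by omega) (by omega)
    omega
  · have := key 14 0 0 (fun c _ => by omega) (by omega) (by omega) (by omega)
    omega

lemma Ga_mid {p h : ℕ} (e : 3 * p = 2 * h + 17) (l : 200 ≤ p) (b : ℕ) (h1 : 1 ≤ b)
    (h2 : b < 13) : Ga p h b + 2 * p = b * p + (h - b) + (3 * p - 28) * (15 - b) := by
  have r : aa h b = 11 ∧ mu h b = h - b ∧ lo h b = 14 := by have := reg h b; omega
  simp only [Ga, y, sum_add_distrib, r.1, r.2.1, r.2.2]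
  rw [S0 (fun _ => p) (fun c _ => by omega), SI p 14 (b - 2) (fun c _ => by omega) (by omega),
    SP (fun _ => h - b - p) (b + 13) (fun c _ => by omega) (by omega),
    S0 (fun _ => p) (fun c _ => by omega), S0 (fun c => 14 - c) (fun c _ => by omega),
    S0 (fun _ => 102) (fun c _ => by omega), S0 (fun _ => 15) (fun c _ => by omega),
    SI (15 - b) 28 (3 * p - 28) (fun c _ => by omega) (by omega)]
  by_cases b1 : b = 1
  · rw [S0 (fun _ => min p (h - b)) (fun c _ => by omega)]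
    subst b1
    omega
  · rw [SP (fun _ => min p (h - b)) (b + 12) (fun c _ => by omega) (by omega)]
    obtain ⟨b, rfl⟩ : ∃ b', b = b' + 2 := ⟨b - 2, by omega⟩
    rw [Nat.add_sub_cancel, add_mul]
    omega

lemma Ga_zero {p h : ℕ} (l : 200 ≤ p) : (3 * p - 14) * 15 ≤ Ga p h 0 := by
  simp only [Ga, y, sum_add_distrib]
  rw [SI (P := fun c => True ∧ 14 ≤ c) 15 14 (3 * p - 14) (fun c _ => by simp; omega) (by omega)]
  omega

lemma Ga_anti {p h : ℕ} (e : 3 * p = 2 * h + 17) (l : 200 ≤ p) (b : ℕ) (hb : b + 1 < 3 * p) :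
    Ga p h (b + 1) < Ga p h b := by
  by_cases a : 13 ≤ b
  · have := Ga_big e l b a (by omega)
    have := Ga_big e l (b + 1) (by omega) hb
    omega
  · by_cases a0 : b = 0
    · subst a0
      have := Ga_zero (h := h) l
      have := Ga_mid e l (0 + 1) le_rfl (by omega)
      omega
    · have p1 := Ga_mid e l b (by omega) (by omega)
      by_cases a1 : b = 12
      · subst a1
        have := Ga_big e l (12 + 1) le_rfl hb
        omega
      · have p2 := Ga_mid e l (b + 1) (by omega) (by omega)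
        have : b < 12 := by omega
        have : 1 ≤ b := by omega
        interval_cases b <;> omega

lemma Be_small {p h : ℕ} (e : 3 * p = 2 * h + 17) (l : 200 ≤ p) (c : ℕ) (hc : c < 14) :
    (c = 0 ∧ Be p h c = h * p + 17 * p) ∨ (0 < c ∧ Be p h c = h * p + 16 * p + (14 - c)) := by
  simp only [Be, y, sum_add_distrib]
  rw [S0 (fun _ => p) (P := fun b => 1 ≤ b ∧ lo h b ≤ c ∧ c < b + aa h b + 1)
      (fun b _ => by have := reg h b; omega),
    S0 (fun b => min p (mu h b)) (fun c _ => by omega), S0 (fun b => mu h b - p) (fun c _ => by omega),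
    S0 (fun _ => p) (P := fun b => 13 ≤ b ∧ b ≤ h ∧ b + h ≤ c + 11 ∧ c + 4 < b + h)
      (fun c _ => by omega),
    S0 (fun _ => 102) (fun c _ => by omega), S0 (fun _ => 15) (fun c _ => by omega),
    S0 (fun b => 15 - b) (fun c _ => by omega)]
  by_cases c0 : c = 0
  · rw [SI p h (h + 17) (fun c _ => by omega) (by omega), S0 (fun _ => 14 - c) (fun c _ => by omega),
      add_mul]
    omega
  · rw [SI p (h + 1) (h + 16) (fun c _ => by omega) (by omega),
      SP (fun _ => 14 - c) 0 (fun c _ => by omega) (by omega), add_mul]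
    omega

lemma Be_big {p h : ℕ} (e : 3 * p = 2 * h + 17) (l : 200 ≤ p) (c : ℕ) (hc : 14 ≤ c) :
    Be p h c = ∑ b ∈ range (3 * p), V p h b c + 117 := by
  have t1 : ∀ b, I (1 ≤ b ∧ b + 1 ≤ c ∧ c < b + aa h b + 1) p =
      I (1 ≤ b ∧ lo h b ≤ c ∧ c < b + aa h b + 1) p +
      I (h < b ∧ b + 12 ≤ 2 * h ∧ b < c ∧ c ≤ b + 7) p := by
    intro b
    have a1 := sp (1 ≤ b ∧ b + 1 ≤ c ∧ c < b + aa h b + 1) p
    have a2 := sp (1 ≤ b ∧ lo h b ≤ c ∧ c < b + aa h b + 1) p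
    have a3 := sp (h < b ∧ b + 12 ≤ 2 * h ∧ b < c ∧ c ≤ b + 7) p
    have r := reg h b
    omega
  have t2 : ∑ b ∈ range (3 * p), I (b = 0 ∧ 14 ≤ c ∧ c < 28) 102 +
      ∑ b ∈ range (3 * p), I (1 ≤ b ∧ b < 13 ∧ 28 ≤ c) (15 - b) = 102 := by
    by_cases d : c < 28
    · rw [SP (fun _ => 102) 0 (fun c _ => by omega) (by omega), S0 _ (fun c _ => by omega)]
    · rw [S0 (fun _ => 102) (fun c _ => by omega), ← sum_subset (s₁ := range 13)
        (range_subset_range.2 (by omega)) fun b _ hb => by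
          have := sp (1 ≤ b ∧ b < 13 ∧ 28 ≤ c) (15 - b)
          rw [mem_range] at hb
          omega]
      simp [sum_range_succ, I, not_lt.1 d]
  simp only [Be, y, V, sum_add_distrib, t1]
  rw [S0 (fun _ => p) (P := fun b => (c = 0 ∧ h ≤ b) ∨ (c < 14 ∧ h < b)) (fun c _ => by omega),
    S0 (fun _ => 14 - c) (fun c _ => by omega), SP (fun _ => 15) 0 (fun c _ => by omega) (by omega),
    SI p (max 13 (c + 5 - h)) (min (h + 1) (c + 12 - h) - max 13 (c + 5 - h))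
      (P := fun b => 13 ≤ b ∧ b ≤ h ∧ b + h ≤ c + 11 ∧ c + 4 < b + h) (fun c _ => by omega) (by omega),
    SI p (max (h + 1) (c - 7)) (min (h + 1) (c + 12 - h) - max 13 (c + 5 - h))
      (P := fun b => h < b ∧ b + 12 ≤ 2 * h ∧ b < c ∧ c ≤ b + 7) (fun c _ => by omega) (by omega)]
  omega

lemma Be_le {p h : ℕ} (e : 3 * p = 2 * h + 17) (l : 200 ≤ p) : Be p h 14 ≤ 14 * p := by
  rw [← SI (q := 3 * p) (P := fun b => b < 14) p 0 14 (fun c _ => by omega) (by omega)]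
  refine sum_le_sum fun b _ => ?_
  have := y_facts e l b 14
  have := sp (b < 14) p
  unfold bef at *
  omega

lemma Vs {p h : ℕ} (e : 3 * p = 2 * h + 17) (b c : ℕ) (hc : 14 ≤ c) :
    (1 ≤ b ∧ b + 1 ≤ c ∧ c < b + aa h b + 1 ∧ V p h b c = p) ∨
    (1 ≤ b ∧ c = b + aa h b + 1 ∧ V p h b c = min p (mu h b)) ∨
    (1 ≤ b ∧ c = b + aa h b + 2 ∧ V p h b c = mu h b - p) ∨
    ((b = 0 ∨ c ≤ b ∨ b + aa h b + 2 < c) ∧ V p h b c = 0) := by
  have a1 := sp (1 ≤ b ∧ b + 1 ≤ c ∧ c < b + aa h b + 1) p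
  have a3 := sp (1 ≤ b ∧ 14 ≤ c ∧ c = b + aa h b + 1) (min p (mu h b))
  have a4 := sp (1 ≤ b ∧ 14 ≤ c ∧ c = b + aa h b + 2) (mu h b - p)
  unfold V
  omega

lemma Be_anti {p h : ℕ} (e : 3 * p = 2 * h + 17) (l : 200 ≤ p) (c : ℕ) (hc : c + 1 < 3 * p) :
    Be p h (c + 1) < Be p h c := by
  by_cases a : c < 13
  · have := Be_small e l c (by omega)
    have := Be_small e l (c + 1) (by omega)
    omega
  · by_cases a1 : c = 13
    · subst a1
      have : Be p h (13 + 1) ≤ 14 * p := Be_le e l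
      have := Be_small e l 13 (by omega)
      omega
    · rw [Be_big e l c (by omega), Be_big e l (c + 1) (by omega)]
      obtain ⟨q, hq⟩ : ∃ q, 3 * p = q + 1 := ⟨3 * p - 1, by omega⟩
      rw [hq, sum_range_succ', sum_range_succ]
      have : ∑ b ∈ range q, V p h (b + 1) (c + 1) < ∑ b ∈ range q, V p h b c := by
        refine sum_lt_sum (fun b _ => ?_) ?_
        · have v1 := Vs e b c (by omega)
          have v2 := Vs e (b + 1) (c + 1) (by omega)
          rcases reg h b with r | r | r | r <;> rcases reg h (b + 1) with s | s | s | s <;> omega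
        · have k : ∀ b, 1 ≤ b → b < c → (c = b + aa h b + 1 ∧ 0 < mu h b ∧ mu h b ≤ p ∨
              c = b + aa h b + 2 ∧ p < mu h b) → ∃ b ∈ range q, V p h (b + 1) (c + 1) < V p h b c := by
            intro b b1 b2 b3
            refine ⟨b, mem_range.2 (by omega), ?_⟩
            have v1 := Vs e b c (by omega)
            have v2 := Vs e (b + 1) (c + 1) (by omega)
            clear hq hc
            rcases reg h b with ⟨r1, r2, r3, -⟩ | ⟨r1, r2, r3, -⟩ | ⟨r0, r1, r2, r3, -⟩ |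
              ⟨r0, r1, r2, r3, -⟩ <;> rcases reg h (b + 1) with ⟨s1, s2, s3, -⟩ | ⟨s1, s2, s3, -⟩ |
              ⟨s0, s1, s2, s3, -⟩ | ⟨s0, s1, s2, s3, -⟩ <;> rcases b3 with b3 | b3 <;> omega
          by_cases d1 : c + p < h + 13
          · exact k (c - 13) (by omega) (by omega) (by have := reg h (c - 13); omega)
          by_cases d2 : c < h + 12
          · exact k (c - 12) (by omega) (by omega) (by have := reg h (c - 12); omega)
          by_cases d3 : c + p < 2 * h + 25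
          · exact k (c - 9) (by omega) (by omega) (by have := reg h (c - 9); omega)
          by_cases d4 : c + 4 ≤ 2 * h
          · exact k (c - 8) (by omega) (by omega) (by have := reg h (c - 8); omega)
          · exact k (c - 1) (by omega) (by omega) (by have := reg h (c - 1); omega)
      have z := Vs e 0 (c + 1) (by omega)
      omega

lemma anti {f : ℕ → ℕ} {q : ℕ} (h : ∀ b, b + 1 < q → f (b + 1) < f b) {a b : ℕ} (ab : a < b)
    (hb : b < q) : f b < f a := by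
  induction b, ab using Nat.le_induction with
  | base => exact h a hb
  | succ b ab ih => exact (h b hb).trans (ih (by omega))

lemma cross {p h : ℕ} (e : 3 * p = 2 * h + 17) (l : 200 ≤ p) (b c : ℕ) (hb : b < 3 * p)
    (hc : c < 3 * p) : (bef h b c → c < b ∧ 3 * p * p + Ga p h b < p + 2 * Be p h c) ∧
      (¬ bef h b c → p + 2 * Be p h c < 3 * p * p + Ga p h b) := by
  have q : 3 * p * p = 2 * (h * p) + 17 * p := by rw [e]; ring
  have g : h + 1 ≤ b → Ga p h b ≤ Ga p h (h + 1) := fun a =>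
    a.eq_or_lt.elim (fun a => a ▸ le_rfl) fun a => (anti (Ga_anti e l) a hb).le
  have g' : b ≤ h - 1 → Ga p h (h - 1) ≤ Ga p h b := fun a =>
    a.eq_or_lt.elim (fun a => a ▸ le_rfl) fun a => (anti (Ga_anti e l) a (by omega)).le
  have g1 := Ga_big e l (h + 1) (by omega) (by omega)
  have g2 := Ga_big e l h (by omega) (by omega)
  have g3 := Ga_big e l (h - 1) (by omega) (by omega)
  unfold bef
  by_cases a : c < 14
  · have := Be_small e l c a
    by_cases d : b = h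
    · subst d
      omega
    · omega
  · have k : Be p h c ≤ Be p h 14 :=
      (not_lt.1 a).eq_or_lt.elim (fun a => a ▸ le_rfl) fun a => (anti (Be_anti e l) a hc).le
    have := Be_le e l
    have : 200 * p ≤ h * p := Nat.mul_le_mul_right _ (by omega)
    omega

end Pool.Agent.H.MP_a6acde_co
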